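import Pool.Agent.Lib.Tower92.GS

set_option autoImplicit false

/-! The Golod-Shafarevich inequality for finite `p`-groups, in terms of explicit two-cocycles. -/

namespace Pool.Agent.Lib.Tower92

set_option maxHeartbeats 400000

open Module

section alg
variable {k A : Type*} [Field k] [Ring A] [Algebra k A] [FiniteDimensional k A]

/-- minimal generators of a nilpotent ideal -/
lemma exists_gens (J : Submodule k A) {N : ℕ} (hN : fil J N = ⊥)
    (hJJ : J * J ≤ J) : ∃ (d : ℕ) (x : Fin d → A), d + finrank k (J * J : Submodule k A) =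
      finrank k J ∧ (∀ i, x i ∈ J) ∧ (∀ y ∈ J, ∃ c : Fin d → A, y = ∑ i, c i * x i) ∧
      ∀ t : Fin d → k, ∑ i, t i • x i ∈ J * J → t = 0 := by
  obtain ⟨Q, hQ⟩ := ((J * J).comap J.subtype).exists_isCompl
  have : Free k Q := Free.of_divisionRing k Q
  let B := finBasis k Q
  let x : Fin (finrank k Q) → A := fun j => (B j).1.1
  let S : Submodule A A := Submodule.span A (Set.range x)
  have hQS : ∀ q : Q, q.1.1 ∈ S := fun q => by
    rw [← B.sum_repr q]
    simp only [AddSubmonoidClass.coe_finsetSum, SetLike.val_smul]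
    refine Submodule.sum_mem _ fun j _ => ?_
    rw [← algebraMap_smul A]
    exact Submodule.smul_mem _ _ (Submodule.subset_span ⟨j, rfl⟩)
  have hback : ∀ n, (∀ a ∈ fil J (n + 1), ∀ c ∈ J, a * c ∈ S) →
      ∀ a ∈ fil J n, ∀ c ∈ J, a * c ∈ S := by
    intro n ih a ha c hc
    obtain ⟨u, hu, q, hq, huq⟩ := Submodule.mem_sup.1
      (show (⟨c, hc⟩ : J) ∈ (J * J).comap J.subtype ⊔ Q from hQ.sup_eq_top ▸ trivial)
    have : c = u.1 + q.1 := (congrArg Subtype.val huq).symm
    rw [this, mul_add]
    refine add_mem ?_ (S.smul_mem a (hQS ⟨q, hq⟩))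
    refine Submodule.mul_induction_on (C := fun z => a * z ∈ S) (show u.1 ∈ J * J from hu)
      (fun m hm r hr => ?_) fun v w hv hw => ?_
    · rw [← mul_assoc]; exact ih _ (Submodule.mul_mem_mul ha hm) _ hr
    · rw [mul_add]; exact add_mem hv hw
  have hall : ∀ m n, n + m = N → ∀ a ∈ fil J n, ∀ c ∈ J, a * c ∈ S := by
    intro m
    induction m with
    | zero =>
      intro n hn a ha c _
      rw [add_zero] at hn
      rw [hn, hN, Submodule.mem_bot] at ha
      simp [ha]
    | succ m ih => intro n hn; exact hback n (ih (n + 1) (by omega))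
  refine ⟨finrank k Q, x, ?_, fun j => (B j).1.2, fun y hy => ?_, fun t ht => ?_⟩
  · have a2 := Submodule.finrank_add_eq_of_isCompl hQ
    rw [(Submodule.comapSubtypeEquivOfLe hJJ).finrank_eq] at a2
    omega
  · have h2 := hall N 0 (zero_add N) 1 trivial y hy
    rw [one_mul] at h2
    obtain ⟨b, hb⟩ := (Submodule.mem_span_range_iff_exists_fun A).1 h2
    exact ⟨b, hb.symm⟩
  · obtain ⟨q, hq⟩ : ∃ q : Q, q = ∑ i, t i • B i := ⟨_, rfl⟩
    have h0 : q.1.1 = ∑ i, t i • x i := by
      rw [hq]
      simp only [AddSubmonoidClass.coe_finsetSum, SetLike.val_smul, x]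
    have h1 : q.1 ∈ (J * J).comap J.subtype := by
      rw [Submodule.mem_comap, Submodule.subtype_apply, h0]; exact ht
    have h2 : q = 0 := Subtype.ext ((Submodule.disjoint_def.1 hQ.disjoint) _ h1 q.2)
    have h3 : B.equivFun.symm t = 0 := by rw [Basis.equivFun_symm_apply, ← hq, h2]
    exact B.equivFun.symm.map_eq_zero_iff.1 h3

end alg

section grp
variable {k G A : Type*} [Field k] [Group G] [Ring A] [Algebra k A]

omit [Group G] in
lemma inv_lin (e : Basis G k A) (ε : A →ₐ[k] k) (hε : ∀ g, ε (e g) = 1) (F : A →ₗ[k] k) (t : k)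
    (h : ∀ g, F (e g) = t) (y : A) : F y = ε y * t := by
  have : F = ε.toLinearMap.smulRight t := e.ext fun g => by simp [h, hε]
  rw [this]; simp

lemma nilp {p : ℕ} [Fact p.Prime] (hG : IsPGroup p G) {A : Type*} [Ring A] [Algebra (ZMod p) A]
    [FiniteDimensional (ZMod p) A] (e : Basis G (ZMod p) A) (he1 : e 1 = 1)
    (hem : ∀ g h, e (g * h) = e g * e h) (ε : A →ₐ[ZMod p] ZMod p) (hε : ∀ g, ε (e g) = 1) :
    ∃ N, fil (LinearMap.ker ε.toLinearMap) N = ⊥ := by
  set J := LinearMap.ker ε.toLinearMap with hJ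
  have hJr : ∀ a, ∀ y ∈ J, y * a ∈ J := fun a y hy => by
    have : ε y = 0 := hy
    simp [hJ, this]
  have step : ∀ n, fil J n ≠ ⊥ → fil J (n + 1) < fil J n := by
    intro n hn
    refine lt_of_le_of_ne (Submodule.mul_le.2 fun a ha y _ => fil_mul_mem hJr n y a ha) fun hc => ?_
    let r : A → fil J n →ₗ[ZMod p] fil J n := fun a =>
      (LinearMap.mulRight (ZMod p) a).restrict fun y hy => fil_mul_mem hJr n a y hy
    let act : MulAction G (Dual (ZMod p) (fil J n)) :=
      { smul := fun g f => f.comp (r (e g))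
        one_smul := fun f => by
          ext m
          exact congrArg f (Subtype.ext (by simp [r, he1]))
        mul_smul := fun g h f => by
          ext m
          exact congrArg f (Subtype.ext (by simp [r, hem, mul_assoc])) }
    have : Finite (Dual (ZMod p) (fil J n)) := Module.finite_of_finite (ZMod p)
    have hpos : 0 < finrank (ZMod p) (fil J n) := by
      rw [pos_iff_ne_zero, Ne, Submodule.finrank_eq_zero]; exact hn
    have hdvd : p ∣ Nat.card (Dual (ZMod p) (fil J n)) := by
      rw [Module.natCard_eq_pow_finrank (K := ZMod p), Subspace.dual_finrank_eq, Nat.card_zmod]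
      exact dvd_pow_self p hpos.ne'
    obtain ⟨f, hf, hf0⟩ := hG.exists_fixed_point_of_prime_dvd_card_of_fixed_point
      (Dual (ZMod p) (fil J n)) hdvd (a := 0) fun g => LinearMap.zero_comp _
    apply hf0
    have key : ∀ (m : fil J n) (y : A), f (r y m) = ε y * f m := fun m y =>
      inv_lin e ε hε
        { toFun := fun y => f (r y m)
          map_add' := fun a b => by
            rw [← map_add]; exact congrArg f (Subtype.ext (by simp [r, mul_add]))
          map_smul' := fun t a => by
            rw [RingHom.id_apply, ← map_smul]; exact congrArg f (Subtype.ext (by simp [r])) }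
        (f m) (fun g => LinearMap.congr_fun (hf g) m) y
    ext ⟨m, hm⟩
    have hm' : m ∈ fil J n * J := hc.ge hm
    have : ∃ h : m ∈ fil J n, f ⟨m, h⟩ = 0 := by
      refine Submodule.mul_induction_on (C := fun z => ∃ h : z ∈ fil J n, f ⟨z, h⟩ = 0) hm'
        (fun u hu y hy => ⟨fil_mul_mem hJr n y u hu, ?_⟩) fun v w ⟨hv, hv'⟩ ⟨hw, hw'⟩ =>
          ⟨add_mem hv hw, ?_⟩
      · have h0 : ε y = 0 := hy
        have := key ⟨u, hu⟩ y
        rw [h0, zero_mul] at this
        exact this
      · have := f.map_add ⟨v, hv⟩ ⟨w, hw⟩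
        rw [hv', hw', add_zero] at this
        exact this
    exact this.2.symm
  by_contra hc
  push Not at hc
  have : ∀ n, finrank (ZMod p) (fil J n) + n ≤ finrank (ZMod p) A := by
    intro n
    induction n with
    | zero => exact Submodule.finrank_le _
    | succ n ih =>
      have := Submodule.finrank_lt_finrank_of_lt (step n (hc n))
      omega
  have := this (finrank (ZMod p) A + 1)
  omega

theorem gs_basis [FiniteDimensional k A] (e : Basis G k A)
    (hem : ∀ g h, e (g * h) = e g * e h) (ε : A →ₐ[k] k) (hε : ∀ g, ε (e g) = 1) {N : ℕ}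
    (hN : fil (LinearMap.ker ε.toLinearMap) N = ⊥) (he1 : e 1 = 1) {d : ℕ} (hd : 1 ≤ d)
    (hχ : d ≤ finrank k (Additive G →+ k)) :
    ∃ r, d ^ 2 < 4 * r ∧ ∃ Φ : (Fin r → k) →ₗ[k] (G → G → k),
      (∀ v g h j, Φ v (g * h) j + Φ v g h = Φ v h j + Φ v g (h * j)) ∧
      ∀ v, (∃ u : G → k, ∀ g h, Φ v g h = u h - u (g * h) + u g) → v = 0 := by
  set J := LinearMap.ker ε.toLinearMap with hJ
  have mem : ∀ y, y ∈ J ↔ ε y = 0 := fun y => Iff.rfl
  have hJr : ∀ a, ∀ y ∈ J, y * a ∈ J := fun a y hy => by simp [mem, (mem y).1 hy]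
  have hJl : ∀ a, ∀ y ∈ J, a * y ∈ J := fun a y hy => by simp [mem, (mem y).1 hy]
  have hJJ : J * J ≤ J := Submodule.mul_le.2 fun a _ y hy => hJl a y hy
  have hsub : ∀ a, a - algebraMap k A (ε a) ∈ J := fun a => by simp [mem]
  have hJ1 : finrank k J + 1 = finrank k A := by
    have := ε.toLinearMap.finrank_range_add_finrank_ker
    rw [LinearMap.range_eq_top.2 fun t => ⟨algebraMap k A t, by simp⟩, finrank_top,
      finrank_self, ← hJ] at this
    omega
  obtain ⟨d', x, hd', hx, hgen, hind⟩ := exists_gens J hN hJJ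
  have hmin : ∀ c : Fin d' → A, ∑ i, c i * x i = 0 → ∀ i, c i ∈ J := by
    intro c hc i
    have h1 : ∑ i, ε (c i) • x i = -∑ i, (c i - algebraMap k A (ε (c i))) * x i := by
      simp only [sub_mul, Finset.sum_sub_distrib, hc, Algebra.smul_def]; simp
    have h2 := hind (fun i => ε (c i)) (h1 ▸ neg_mem
      (Submodule.sum_mem _ fun i _ => Submodule.mul_mem_mul (hsub _) (hx i)))
    exact congrFun h2 i
  have hdd : d ≤ d' := by
    let θ : (Additive G →+ k) →ₗ[k] (Fin d' → k) :=
      { toFun := fun χ i => e.constr k (fun g => χ (Additive.ofMul g)) (x i)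
        map_add' := fun a b => by
          funext i
          rw [Pi.add_apply, ← LinearMap.add_apply, ← map_add]; rfl
        map_smul' := fun t a => by
          funext i
          rw [RingHom.id_apply, Pi.smul_apply, ← LinearMap.smul_apply, ← map_smul]; rfl }
    have hθ : Function.Injective θ := by
      rw [injective_iff_map_eq_zero]
      intro χ h0
      let D : A →ₗ[k] k := e.constr k fun g => χ (Additive.ofMul g)
      have hD : ∀ g, D (e g) = χ (Additive.ofMul g) := fun g => e.constr_basis k _ g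
      have h1 : ∀ g y, D (e g * y) = D y + ε y * D (e g) := fun g y => by
        have := inv_lin e ε hε (D.comp (LinearMap.mulLeft k (e g)) - D) (D (e g))
          (fun h => by simp [← hem, hD]) y
        simp only [LinearMap.sub_apply, LinearMap.comp_apply, LinearMap.mulLeft_apply] at this
        linear_combination this
      have h2 : ∀ a, ∀ y ∈ J, D (a * y) = ε a * D y := fun a y hy =>
        inv_lin e ε hε (D.comp (LinearMap.mulRight k y)) (D y)
          (fun g => by simp [h1, (mem y).1 hy]) a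
      ext g
      obtain ⟨c, hc⟩ := hgen (e (Additive.toMul g) - 1) (by simp [mem, hε])
      have h3 := congrArg D hc
      have h4 : ∀ i, D (x i) = 0 := fun i => congrFun h0 i
      rw [map_sub, ← he1, hD, hD, map_sum] at h3
      have h5 : χ (Additive.ofMul (Additive.toMul g)) = 0 := by
        simpa [h2 _ _ (hx _), h4] using h3
      exact h5
    have := LinearMap.finrank_le_finrank_of_injective hθ
    simp only [finrank_fin_fun] at this
    omega
  let R := LinearMap.ker (comb k x)
  have hsm : ∀ (a : A) (c : Fin d' → A), comb k x (a • c) = a * comb k x c := fun a c => by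
    simp [comb_apply, Finset.mul_sum, mul_assoc]
  let T : Submodule k (Dual k R) :=
    { carrier := {f | ∀ a ∈ J, ∀ c c' : R, c'.1 = a • c.1 → f c' = 0}
      add_mem' := fun hf hg a ha c c' h => by simp [hf a ha c c' h, hg a ha c c' h]
      zero_mem' := fun _ _ _ _ _ => rfl
      smul_mem' := fun t f hf a ha c c' h => by simp [hf a ha c c' h] }
  have hT := gs_dual J hJ1 hJl hJr hN x hx hgen hmin (by simp; omega) T fun f hf => hf
  rw [Fintype.card_fin] at hT
  have : Free k T := Free.of_divisionRing k T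
  let E := (finBasis k T).equivFun.symm
  choose s hs using fun g => hgen (e g - 1) (by simp [mem, hε])
  let σ : A →ₗ[k] (Fin d' → A) := e.constr k s
  have hσe : ∀ g, σ (e g) = s g := fun g => e.constr_basis k _ g
  have hs' : ∀ g, comb k x (s g) = e g - 1 := fun g => (hs g).symm
  have hσ : ∀ y, comb k x (σ y) = y - algebraMap k A (ε y) := fun y => by
    have : (comb k x).comp σ = LinearMap.id - (Algebra.linearMap k A).comp ε.toLinearMap :=
      e.ext fun g => by simp [hσe, hs', hε]
    exact LinearMap.congr_fun this y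
  have hφJ : ∀ c, ε (comb k x c) = 0 := fun c => by
    rw [comb_apply]
    exact (mem _).1 (Submodule.sum_mem _ fun i _ => hJl _ _ (hx i))
  let π : (Fin d' → A) →ₗ[k] R := (LinearMap.id - σ.comp (comb k x)).codRestrict R fun c => by
    change comb k x (c - σ (comb k x c)) = 0
    rw [map_sub, hσ, hφJ]; simp
  have hπ : ∀ c : R, π c.1 = c := fun c => Subtype.ext (by
    change c.1 - σ (comb k x c.1) = c.1
    rw [show comb k x c.1 = 0 from c.2]; simp)
  have hinv : ∀ f : T, ∀ g, ∀ c ∈ R, f.1 (π (e g • c)) = f.1 (π c) := by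
    intro f g c hc
    rw [← sub_eq_zero, ← map_sub, ← map_sub]
    have h1 : e g • c - c ∈ R := by
      change comb k x _ = 0
      rw [map_sub, hsm, show comb k x c = 0 from hc]; simp
    rw [hπ ⟨_, h1⟩]
    exact f.2 (e g - 1) (by simp [mem, hε]) ⟨c, hc⟩ _ (by simp [sub_smul])
  have hw : ∀ g h, s g + e g • s h - s (g * h) ∈ R := fun g h => by
    change comb k x _ = 0
    rw [map_sub, map_add, hsm, hs', hs', hs', hem]; noncomm_ring
  let Φ : T →ₗ[k] (G → G → k) :=
    { toFun := fun f g h => f.1 (π (s g + e g • s h - s (g * h)))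
      map_add' := fun _ _ => rfl
      map_smul' := fun _ _ => rfl }
  have hΦ : ∀ f g h, Φ f g h = f.1 (π (s g + e g • s h - s (g * h))) := fun _ _ _ => rfl
  refine ⟨finrank k T, lt_of_le_of_lt (Nat.pow_le_pow_left hdd 2) hT, Φ.comp E.toLinearMap,
    fun v g h j => ?_, fun v ⟨u, hu⟩ => ?_⟩
  · simp only [LinearMap.comp_apply, hΦ]
    rw [← hinv _ g _ (hw h j), ← map_add, ← map_add, ← map_add, ← map_add]
    congr 2
    simp only [smul_add, smul_sub, smul_smul, ← hem, mul_assoc]
    abel
  · rw [← E.map_eq_zero_iff]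
    set f := E v
    replace hu : ∀ g h, f.1 (π (s g + e g • s h - s (g * h))) = u h - u (g * h) + u g := hu
    let U : A →ₗ[k] k := e.constr k u
    have hU : ∀ g, U (e g) = u g := fun g => e.constr_basis k _ g
    let f' : (Fin d' → A) →ₗ[k] k := f.1.comp π
    have hf' : ∀ c, f' c = f.1 (π c) := fun _ => rfl
    have h1 : ∀ g y, f' (e g • σ y) - f' (σ (e g * y)) - U y + U (e g * y) =
        ε y * (u g - f' (s g)) := fun g y =>
      inv_lin e ε hε (f'.comp ((DistribSMul.toLinearMap k _ (e g)).comp σ) -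
        f'.comp (σ.comp (LinearMap.mulLeft k (e g))) - U + U.comp (LinearMap.mulLeft k (e g))) _
        (fun h => by
          have := hu g h
          rw [← hf', map_sub, map_add] at this
          simp only [LinearMap.add_apply, LinearMap.sub_apply, LinearMap.comp_apply,
            DistribSMul.toLinearMap_apply, LinearMap.mulLeft_apply,
            ← hem, hσe, hU]
          linear_combination this) y
    let F : (Fin d' → A) →ₗ[k] k := f' - f'.comp (σ.comp (comb k x)) + U.comp (comb k x)
    have hF : ∀ c, F c = f' c - f' (σ (comb k x c)) + U (comb k x c) := fun _ => rfl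
    have h2 : ∀ g c, F (e g • c) = F c := fun g c => by
      have a1 := h1 g (comb k x c)
      rw [hφJ, zero_mul] at a1
      have a2 := hinv f g (c - σ (comb k x c)) (π c).2
      rw [← hf', ← hf', smul_sub, map_sub, map_sub] at a2
      rw [hF, hF, hsm]
      linear_combination a1 + a2
    have h3 : ∀ (y : A) c, F (y • c) = ε y * F c := fun y c =>
      inv_lin e ε hε (F.comp ((LinearMap.toSpanSingleton A _ c).restrictScalars k)) (F c)
        (fun g => h2 g c) y
    refine Subtype.ext (LinearMap.ext fun c => ?_)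
    have h4 : F c.1 = f.1 c := by
      rw [hF, show comb k x c.1 = 0 from c.2, hf', hπ]; simp
    have h5 : c.1 = ∑ i, c.1 i • (Pi.single i 1 : Fin d' → A) := by
      funext j; simp [Pi.single_apply]
    rw [← h4, h5, map_sum]
    exact Finset.sum_eq_zero fun i _ => by rw [h3, (mem _).1 (hmin _ c.2 i), zero_mul]

/-- Golod-Shafarevich: a finite `p`-group with at least `d ≥ 1` independent characters of order
`p` has a space of dimension `r > d ^ 2 / 4` of two-cocycles with no nonzero coboundary. -/
theorem gs_cocycle {p : ℕ} [Fact p.Prime] [Finite G] (hG : IsPGroup p G) {d : ℕ} (hd : 1 ≤ d)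
    (hχ : p ^ d ≤ Nat.card (G →* Multiplicative (ZMod p))) :
    ∃ r, d ^ 2 < 4 * r ∧ ∃ Φ : (Fin r → ZMod p) →ₗ[ZMod p] (G → G → ZMod p),
      (∀ v g h j, Φ v (g * h) j + Φ v g h = Φ v h j + Φ v g (h * j)) ∧
      ∀ v, (∃ u : G → ZMod p, ∀ g h, Φ v g h = u h - u (g * h) + u g) → v = 0 := by
  let e := MonoidAlgebra.basis G (ZMod p)
  let ε : MonoidAlgebra (ZMod p) G →ₐ[ZMod p] ZMod p := MonoidAlgebra.lift (ZMod p) (ZMod p) G 1
  have : FiniteDimensional (ZMod p) (MonoidAlgebra (ZMod p) G) := Module.Finite.of_basis e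
  have he1 : e 1 = 1 := rfl
  have hem : ∀ g h, e (g * h) = e g * e h := fun g h => by
    simp [e, MonoidAlgebra.single_mul_single]
  have hε : ∀ g, ε (e g) = 1 := fun g => by simp [e, ε]
  obtain ⟨N, hN⟩ := nilp hG e he1 hem ε hε
  refine gs_basis e hem ε hε hN he1 hd ?_
  have : Finite (Additive G →+ ZMod p) :=
    Finite.of_injective (fun χ : Additive G →+ ZMod p => (χ : Additive G → ZMod p))
      DFunLike.coe_injective
  have : Module.Finite (ZMod p) (Additive G →+ ZMod p) := Module.Finite.of_finite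
  rw [← Nat.card_congr (AddMonoidHom.toMultiplicativeRight (α := G) (β := ZMod p)),
    Module.natCard_eq_pow_finrank (K := ZMod p), Nat.card_zmod] at hχ
  exact (Nat.pow_le_pow_iff_right (Fact.out : p.Prime).one_lt).1 hχ

/-- Pigeonhole form: any labelling of the two-cocycles by at most `p ^ m` labels, `4 m ≤ d ^ 2`,
gives the same label to two cocycles that are not cohomologous. -/
theorem gs_pigeon {p : ℕ} [Fact p.Prime] [Finite G] (hG : IsPGroup p G) {d m : ℕ} (hd : 1 ≤ d)
    (hχ : p ^ d ≤ Nat.card (G →* Multiplicative (ZMod p))) (hm : 4 * m ≤ d ^ 2)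
    {X : Type*} [Finite X] (hX : Nat.card X ≤ p ^ m) (Λ : (G → G → ZMod p) → X) :
    ∃ c c' : G → G → ZMod p, (∀ g h j, c (g * h) j + c g h = c h j + c g (h * j)) ∧
      (∀ g h j, c' (g * h) j + c' g h = c' h j + c' g (h * j)) ∧ Λ c = Λ c' ∧
      ¬∃ u : G → ZMod p, ∀ g h, c g h - c' g h = u h - u (g * h) + u g := by
  obtain ⟨r, hr, Φ, h1, h2⟩ := gs_cocycle hG hd hχ
  have hlt : Nat.card X < Nat.card (Fin r → ZMod p) := by
    rw [Nat.card_fun, Nat.card_zmod, Nat.card_fin]
    exact hX.trans_lt (Nat.pow_lt_pow_right (Fact.out : p.Prime).one_lt (by omega))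
  have : ¬Function.Injective fun v => Λ (Φ v) := fun h =>
    (Nat.card_le_card_of_injective _ h).not_gt hlt
  obtain ⟨v, w, hvw, hne⟩ := Function.not_injective_iff.1 this
  refine ⟨Φ v, Φ w, h1 v, h1 w, hvw, fun ⟨u, hu⟩ => hne (sub_eq_zero.1 (h2 _ ⟨u, fun g h => ?_⟩))⟩
  rw [map_sub]; exact hu g h

/-- Index form: `Z` contains the two-cocycles, `B` consists of coboundaries. -/
theorem gs_relIndex {p : ℕ} [Fact p.Prime] [Finite G] (hG : IsPGroup p G) :
    ∃ d, Nat.card (G →* Multiplicative (ZMod p)) = p ^ d ∧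
      ∀ Z B : AddSubgroup (G → G → ZMod p),
        (∀ c : G → G → ZMod p, (∀ g h j, c h j + c g (h * j) = c (g * h) j + c g h) → c ∈ Z) →
        (∀ c ∈ B, ∃ u : G → ZMod p, ∀ g h, c g h = u g + u h - u (g * h)) →
        ∀ r, B.relIndex Z ≤ p ^ r → d ^ 2 ≤ 4 * r := by
  have : Finite (Additive G →+ ZMod p) :=
    Finite.of_injective (fun χ : Additive G →+ ZMod p => (χ : Additive G → ZMod p))
      DFunLike.coe_injective
  have : Module.Finite (ZMod p) (Additive G →+ ZMod p) := Module.Finite.of_finite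
  have hc : Nat.card (G →* Multiplicative (ZMod p)) =
      p ^ finrank (ZMod p) (Additive G →+ ZMod p) := by
    rw [← Nat.card_congr (AddMonoidHom.toMultiplicativeRight (α := G) (β := ZMod p)),
      Module.natCard_eq_pow_finrank (K := ZMod p), Nat.card_zmod]
  refine ⟨_, hc, fun Z B hZ hB r hr => ?_⟩
  rcases Nat.eq_zero_or_pos (finrank (ZMod p) (Additive G →+ ZMod p)) with h0 | h0
  · simp [h0]
  obtain ⟨r', hr', Φ, h1, h2⟩ := gs_cocycle hG h0 hc.ge
  have hinj : Function.Injective fun v : Fin r' → ZMod p =>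
      (QuotientAddGroup.mk ⟨Φ v, hZ _ fun g h j => (h1 v g h j).symm⟩ :
        Z ⧸ B.addSubgroupOf Z) := by
    intro v w hvw
    obtain ⟨u, hu⟩ := hB _ (AddSubgroup.mem_addSubgroupOf.1 (QuotientAddGroup.eq.1 hvw))
    refine (sub_eq_zero.1 (h2 (w - v) ⟨u, fun g h => ?_⟩)).symm
    have h3 : -Φ v g h + Φ w g h = u g + u h - u (g * h) := hu g h
    rw [map_sub, Pi.sub_apply, Pi.sub_apply]
    linear_combination h3
  have hle := Nat.card_le_card_of_injective _ hinj
  rw [Nat.card_fun, Nat.card_zmod, Nat.card_fin] at hle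
  have := (Nat.pow_le_pow_iff_right (Fact.out : p.Prime).one_lt).1 (hle.trans hr)
  omega

end grp

end Pool.Agent.Lib.Tower92
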