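import Mathlib

set_option autoImplicit false

/-! The Golod-Shafarevich inequality for a finite dimensional augmented algebra with nilpotent
augmentation ideal. -/

namespace Pool.Agent.Lib.Tower92

open Module

section lin
variable {k V W : Type*} [Field k] [AddCommGroup V] [Module k V] [AddCommGroup W] [Module k W]
  [FiniteDimensional k V]

lemma finrank_map_add (f : V →ₗ[k] W) (P : Submodule k V) :
    finrank k (P.map f) + finrank k (P ⊓ LinearMap.ker f : Submodule k V) = finrank k P := by
  have h := (f.domRestrict P).finrank_range_add_finrank_ker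
  rw [LinearMap.range_domRestrict, LinearMap.ker_domRestrict] at h
  rw [← h, ← Submodule.map_comap_subtype, Submodule.finrank_map_subtype_eq]

lemma finrank_range_le (f : V →ₗ[k] W) (P : Submodule k V) :
    finrank k (LinearMap.range f) + finrank k P ≤ finrank k (P.map f) + finrank k V := by
  have h1 := finrank_map_add f P
  have h2 := f.finrank_range_add_finrank_ker
  have h3 : finrank k (P ⊓ LinearMap.ker f : Submodule k V) ≤ finrank k (LinearMap.ker f) :=
    Submodule.finrank_mono inf_le_right
  omega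

lemma finrank_pi_const {ι : Type*} [Fintype ι] (Q : Submodule k V) :
    finrank k (Submodule.pi Set.univ fun _ : ι => Q) = Fintype.card ι * finrank k Q := by
  have h : (Submodule.pi Set.univ fun _ : ι => Q) = LinearMap.range (Q.subtype.compLeft ι) := by
    ext c
    simp only [Submodule.mem_pi, Set.mem_univ, true_imp_iff, LinearMap.mem_range]
    constructor
    · intro hc
      exact ⟨fun i => ⟨c i, hc i⟩, rfl⟩
    · rintro ⟨b, rfl⟩ i
      exact (b i).2
  rw [h, LinearMap.finrank_range_of_inj, Module.finrank_pi_fintype]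
  · simp
  · intro a b hab
    funext i
    exact Subtype.ext (congrFun hab i)

end lin

section alg
variable {k A : Type*} [Field k] [Ring A] [Algebra k A]

/-- powers of the ideal `J`, starting from the whole algebra -/
def fil (J : Submodule k A) : ℕ → Submodule k A
  | 0 => ⊤
  | n + 1 => fil J n * J

lemma fil_mul_mem {J : Submodule k A} (hJr : ∀ a, ∀ y ∈ J, y * a ∈ J) (n : ℕ) (a : A) :
    ∀ y ∈ fil J n, y * a ∈ fil J n := by
  cases n with
  | zero => intro _ _; trivial
  | succ n =>
    intro y hy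
    refine Submodule.mul_induction_on hy (fun u hu v hv => ?_) fun u v hu hv => ?_
    · rw [mul_assoc]; exact Submodule.mul_mem_mul hu (hJr a v hv)
    · rw [add_mul]; exact add_mem hu hv

lemma fil_one {J : Submodule k A} (hJl : ∀ a, ∀ y ∈ J, a * y ∈ J) : fil J 1 = J := by
  apply le_antisymm
  · exact Submodule.mul_le.2 fun a _ y hy => hJl a y hy
  · intro y hy
    have := Submodule.mul_mem_mul (M := fil J 0) (N := J) (m := 1) trivial hy
    rwa [one_mul] at this

/-- the map `c ↦ ∑ c i * x i` -/
def comb {ι : Type*} [Fintype ι] (k : Type*) [Field k] [Algebra k A] (x : ι → A) :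
    (ι → A) →ₗ[k] A where
  toFun c := ∑ i, c i * x i
  map_add' a b := by simp [add_mul, Finset.sum_add_distrib]
  map_smul' t a := by simp [Finset.smul_sum]

lemma comb_apply {ι : Type*} [Fintype ι] (x c : ι → A) : comb k x c = ∑ i, c i * x i := rfl

lemma map_comb {ι : Type*} [Fintype ι] {J : Submodule k A} (hJr : ∀ a, ∀ y ∈ J, y * a ∈ J)
    {x : ι → A} (hx : ∀ i, x i ∈ J) (hgen : ∀ y ∈ J, ∃ c : ι → A, y = ∑ i, c i * x i) (n : ℕ) :
    (Submodule.pi Set.univ fun _ : ι => fil J n).map (comb k x) = fil J (n + 1) := by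
  apply le_antisymm
  · rintro _ ⟨c, hc, rfl⟩
    exact Submodule.sum_mem _ fun i _ => Submodule.mul_mem_mul (hc i trivial) (hx i)
  · refine Submodule.mul_le.2 fun u hu y hy => ?_
    obtain ⟨c, rfl⟩ := hgen y hy
    refine ⟨fun i => u * c i, fun i _ => fil_mul_mem hJr n _ u hu, ?_⟩
    simp [comb_apply, Finset.mul_sum, mul_assoc]

lemma num {d r : ℕ} {c : ℕ → ℕ} (hd : 1 ≤ d) (h0 : c 0 = 0) (h1 : c 1 = 1)
    (h : ∀ n, d * c (n + 1) + 1 ≤ r * c n + c (n + 2)) {N : ℕ} (hN : c (N + 1) ≤ c N)
    (hN' : c (N + 2) ≤ c (N + 1)) : d ^ 2 < 4 * r := by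
  by_contra hc
  rcases hd.eq_or_lt with rfl | hd
  · have hr : r = 0 := by omega
    have := h N
    rw [hr] at this
    omega
  have hc' : (4 * r : ℤ) ≤ (d : ℤ) ^ 2 := by exact_mod_cast not_lt.1 hc
  have key : ∀ n, (d * c n : ℤ) < 2 * c (n + 1) := by
    intro n
    induction n with
    | zero => simp [h0, h1]
    | succ n ih =>
      have a : (d * c (n + 1) + 1 : ℤ) ≤ r * c n + c (n + 2) := by exact_mod_cast h n
      have b : (4 * r * c n : ℤ) ≤ (d : ℤ) ^ 2 * c n :=
        mul_le_mul_of_nonneg_right hc' (Int.natCast_nonneg _)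
      have e : (d * (d * c n) : ℤ) ≤ d * (2 * c (n + 1)) :=
        mul_le_mul_of_nonneg_left ih.le (Int.natCast_nonneg _)
      have : c (n + 1 + 1) = c (n + 2) := rfl
      rw [this]
      nlinarith
  have a := key N
  have b : (c (N + 1) : ℤ) ≤ c N := by exact_mod_cast hN
  have e : (2 : ℤ) ≤ d := by exact_mod_cast hd
  nlinarith [Int.natCast_nonneg (c N)]

variable [FiniteDimensional k A]

/-- Golod-Shafarevich inequality, generators and relations form. -/
theorem gs_gen {ι κ : Type*} [Fintype ι] [Fintype κ] (J : Submodule k A)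
    (hJ1 : finrank k J + 1 = finrank k A) (hJl : ∀ a, ∀ y ∈ J, a * y ∈ J)
    (hJr : ∀ a, ∀ y ∈ J, y * a ∈ J) {N : ℕ} (hN : fil J N = ⊥) (x : ι → A) (hx : ∀ i, x i ∈ J)
    (hgen : ∀ y ∈ J, ∃ c : ι → A, y = ∑ i, c i * x i) (ρ : κ → ι → A) (hρ : ∀ j i, ρ j i ∈ J)
    (hρ0 : ∀ j, ∑ i, ρ j i * x i = 0)
    (hrel : ∀ c : ι → A, ∑ i, c i * x i = 0 → ∃ b : κ → A, ∀ i, c i = ∑ j, b j * ρ j i)
    (hd : 1 ≤ Fintype.card ι) : Fintype.card ι ^ 2 < 4 * Fintype.card κ := by
  set ψ : (κ → A) →ₗ[k] (ι → A) := LinearMap.pi fun i => comb k fun j => ρ j i with hψ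
  have hψa : ∀ b i, ψ b i = ∑ j, b j * ρ j i := fun b i => rfl
  have hrange : LinearMap.range ψ = LinearMap.ker (comb k x) := by
    ext c
    constructor
    · rintro ⟨b, rfl⟩
      rw [LinearMap.mem_ker, comb_apply]
      simp only [hψa, Finset.sum_mul]
      rw [Finset.sum_comm]
      simp [mul_assoc, ← Finset.mul_sum, hρ0]
    · intro hc
      obtain ⟨b, hb⟩ := hrel c hc
      exact ⟨b, funext fun i => (hb i).symm⟩
  have hle : ∀ n, finrank k (fil J n) ≤ finrank k A := fun n => Submodule.finrank_le _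
  have htop : finrank k (fil J 0) = finrank k A := finrank_top k A
  have hone : finrank k (fil J 1) + 1 = finrank k A := by rw [fil_one hJl, hJ1]
  have e : ∀ n, finrank k (fil J (n + 1)) + finrank k ((Submodule.pi Set.univ fun _ : ι => fil J n)
      ⊓ LinearMap.ker (comb k x) : Submodule k (ι → A)) =
      Fintype.card ι * finrank k (fil J n) := fun n => by
    rw [← map_comb hJr hx hgen n, finrank_map_add, finrank_pi_const]
  have e0 := e 0
  rw [show (Submodule.pi Set.univ fun _ : ι => fil J 0) = ⊤ from Submodule.pi_top _, top_inf_eq,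
    htop, zero_add] at e0
  refine num (c := fun n => finrank k A - finrank k (fil J n)) (N := N) hd (by simp [htop])
    (by omega) (fun n => ?_) ?_ ?_
  · have a1 := e (n + 1)
    have a2 := finrank_range_le ψ (Submodule.pi Set.univ fun _ : κ => fil J n)
    rw [hrange, finrank_pi_const, Module.finrank_pi_fintype] at a2
    simp only [Finset.sum_const, Finset.card_univ, smul_eq_mul] at a2
    have a3 : finrank k ((Submodule.pi Set.univ fun _ : κ => fil J n).map ψ) ≤
        finrank k ((Submodule.pi Set.univ fun _ : ι => fil J (n + 1))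
          ⊓ LinearMap.ker (comb k x) : Submodule k (ι → A)) := by
      refine Submodule.finrank_mono (le_inf ?_ (hrange ▸ LinearMap.map_le_range))
      rintro _ ⟨b, hb, rfl⟩ i _
      rw [hψa]
      exact Submodule.sum_mem _ fun j _ => Submodule.mul_mem_mul (hb j trivial) (hρ j i)
    obtain ⟨u, hu⟩ := Nat.exists_eq_add_of_le (hle n)
    obtain ⟨v, hv⟩ := Nat.exists_eq_add_of_le (hle (n + 1))
    obtain ⟨w, hw⟩ := Nat.exists_eq_add_of_le (hle (n + 2))
    have b1 : finrank k A - finrank k (fil J n) = u := by omega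
    have b2 : finrank k A - finrank k (fil J (n + 1)) = v := by omega
    have b3 : finrank k A - finrank k (fil J (n + 2)) = w := by omega
    simp only [b1, b2, b3]
    have c1 : Fintype.card κ * finrank k A =
        Fintype.card κ * finrank k (fil J n) + Fintype.card κ * u := by rw [← mul_add, ← hu]
    have c2 : Fintype.card ι * finrank k A =
        Fintype.card ι * finrank k (fil J (n + 1)) + Fintype.card ι * v := by rw [← mul_add, ← hv]
    have : n + 1 + 1 = n + 2 := rfl
    rw [this] at a1
    omega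
  · rw [hN, finrank_bot]
    omega
  · rw [show fil J (N + 1) = ⊥ by rw [fil, hN, Submodule.bot_mul], finrank_bot]
    omega

/-- Golod-Shafarevich inequality, dual form: `T` is any space containing the functionals on the
relation module that vanish on `J` times the relation module. -/
theorem gs_dual {ι : Type*} [Fintype ι] (J : Submodule k A)
    (hJ1 : finrank k J + 1 = finrank k A) (hJl : ∀ a, ∀ y ∈ J, a * y ∈ J)
    (hJr : ∀ a, ∀ y ∈ J, y * a ∈ J) {N : ℕ} (hN : fil J N = ⊥) (x : ι → A) (hx : ∀ i, x i ∈ J)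
    (hgen : ∀ y ∈ J, ∃ c : ι → A, y = ∑ i, c i * x i)
    (hmin : ∀ c : ι → A, ∑ i, c i * x i = 0 → ∀ i, c i ∈ J) (hd : 1 ≤ Fintype.card ι)
    (T : Submodule k (Dual k (LinearMap.ker (comb k x))))
    (hT : ∀ f : Dual k (LinearMap.ker (comb k x)),
      (∀ a ∈ J, ∀ c c' : LinearMap.ker (comb k x), c'.1 = a • c.1 → f c' = 0) → f ∈ T) :
    Fintype.card ι ^ 2 < 4 * finrank k T := by
  let R := LinearMap.ker (comb k x)
  let JR : Submodule k R := Submodule.span k {c' | ∃ a ∈ J, ∃ c : R, c'.1 = a • c.1}
  obtain ⟨Q, hQ⟩ := JR.exists_isCompl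
  have : Free k Q := Free.of_divisionRing k Q
  have h1 : finrank k Q ≤ finrank k T := by
    have a1 := Subspace.finrank_add_finrank_dualAnnihilator_eq JR
    have a2 := Submodule.finrank_add_eq_of_isCompl hQ
    have a3 : finrank k JR.dualAnnihilator ≤ finrank k T := by
      refine Submodule.finrank_mono fun f hf => hT f fun a ha c c' hc => ?_
      exact (Submodule.mem_dualAnnihilator f).1 hf c' (Submodule.subset_span ⟨a, ha, c, hc⟩)
    omega
  let B := finBasis k Q
  let ρ : Fin (finrank k Q) → ι → A := fun j => (B j).1.1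
  let S : Submodule A (ι → A) := Submodule.span A (Set.range ρ)
  have hQS : ∀ q : Q, q.1.1 ∈ S := fun q => by
    rw [← B.sum_repr q]
    simp only [AddSubmonoidClass.coe_finsetSum, SetLike.val_smul]
    refine Submodule.sum_mem _ fun j _ => ?_
    rw [← algebraMap_smul A]
    exact Submodule.smul_mem _ _ (Submodule.subset_span ⟨j, rfl⟩)
  have hback : ∀ n, (∀ a ∈ fil J (n + 1), ∀ c ∈ R, a • c ∈ S) →
      ∀ a ∈ fil J n, ∀ c ∈ R, a • c ∈ S := by
    intro n ih a ha c hc
    obtain ⟨u, hu, q, hq, huq⟩ := Submodule.mem_sup.1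
      (show (⟨c, hc⟩ : R) ∈ JR ⊔ Q from hQ.sup_eq_top ▸ trivial)
    have : c = u.1 + q.1 := (congrArg Subtype.val huq).symm
    rw [this, smul_add]
    refine add_mem ?_ (Submodule.smul_mem _ _ (hQS ⟨q, hq⟩))
    clear huq this
    induction hu using Submodule.span_induction with
    | mem u hu =>
      obtain ⟨b, hb, c', hc'⟩ := hu
      rw [hc', smul_smul]
      exact ih _ (Submodule.mul_mem_mul ha hb) _ c'.2
    | zero => simp
    | add u v _ _ hu hv => rw [Submodule.coe_add, smul_add]; exact add_mem hu hv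
    | smul t u _ hu =>
      rw [Submodule.coe_smul, smul_comm, ← algebraMap_smul A]
      exact Submodule.smul_mem _ _ hu
  have hall : ∀ m n, n + m = N → ∀ a ∈ fil J n, ∀ c ∈ R, a • c ∈ S := by
    intro m
    induction m with
    | zero =>
      intro n hn a ha c _
      rw [add_zero] at hn
      rw [hn, hN, Submodule.mem_bot] at ha
      simp [ha]
    | succ m ih => intro n hn; exact hback n (ih (n + 1) (by omega))
  have := gs_gen J hJ1 hJl hJr hN x hx hgen ρ (fun j => hmin _ (B j).1.2) (fun j => (B j).1.2)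
    (fun c hc => by
      have h2 := hall N 0 (zero_add N) 1 trivial c hc
      rw [one_smul] at h2
      obtain ⟨b, hb⟩ := (Submodule.mem_span_range_iff_exists_fun A).1 h2
      exact ⟨b, fun i => by rw [← hb]; simp⟩) hd
  rw [Fintype.card_fin] at this
  omega

end alg

end Pool.Agent.Lib.Tower92
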